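import Mathlib

open Finset Equiv

namespace Pool.Agent.Results.MP_cc6741_nt.EvenDerangementSum

variable {K : Type*} [Field K]

/-- The matrix `1/(x i - x j)` off the diagonal, `0` on it. -/
noncomputable def cm {α : Type*} [DecidableEq α] (x : α → K) (i j : α) : K :=
  if i = j then 0 else 1 / (x i - x j)

/-- weighted sum over permutations -/
noncomputable def S (χ : ℤˣ →* K) {α : Type*} [Fintype α] [DecidableEq α] (x : α → K) : K :=
  ∑ σ : Perm α, χ (Perm.sign σ) * ∏ j, cm x j (σ j)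

lemma cm_comp {α β : Type*} [DecidableEq α] [DecidableEq β] (x : α → K) (e : β → α)
    (he : Function.Injective e) (i j : β) : cm (x ∘ e) i j = cm x (e i) (e j) := by
  unfold cm
  by_cases h : i = j
  · simp [h]
  · have : e i ≠ e j := fun h' => h (he h')
    simp [h, this]

lemma S_congr (χ : ℤˣ →* K) {α β : Type*} [Fintype α] [DecidableEq α] [Fintype β] [DecidableEq β]
    (x : α → K) (e : β ≃ α) : S χ (x ∘ e) = S χ x := by
  unfold S
  refine Fintype.sum_equiv e.permCongr _ _ ?_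
  intro σ
  rw [Perm.sign_permCongr]
  congr 1
  refine Fintype.prod_equiv e _ _ ?_
  intro j
  rw [cm_comp x e e.injective]
  simp [Equiv.permCongr_apply]

lemma sum_fix (χ : ℤˣ →* K) {β : Type*} [Fintype β] [DecidableEq β] (x : β → K) (a : β) :
    ∑ σ : Perm β, (if σ a = a then χ (Perm.sign σ) * ∏ j ∈ univ.erase a, cm x j (σ j) else 0)
      = S χ (fun j : {j : β // j ≠ a} => x j) := by
  classical
  rw [← Finset.sum_filter]
  unfold S
  symm
  refine Finset.sum_bij' (fun (σ : Perm {j : β // j ≠ a}) _ => Perm.ofSubtype σ)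
    (fun (σ : Perm β) hσ => σ.subtypePerm (p := fun j => j ≠ a) (by
      intro j
      have h : σ a = a := (Finset.mem_filter.1 hσ).2
      constructor
      · intro h1 h2; subst h2; exact h1 h
      · intro h1 h2; exact h1 (σ.injective (h2.trans h.symm))
      )) ?_ ?_ ?_ ?_ ?_
  · intro σ _
    simp only [mem_filter, mem_univ, true_and]
    exact Perm.ofSubtype_apply_of_not_mem σ (by simp)
  · intro σ _; exact mem_univ _
  · intro σ _
    simp
  · intro σ hσ
    apply Perm.ofSubtype_subtypePerm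
    intro j hj
    have h : σ a = a := (Finset.mem_filter.1 hσ).2
    intro h2; subst h2; exact hj h
  · intro σ _
    rw [Perm.sign_ofSubtype]
    congr 1
    symm
    have h1 : ∀ j, j ∈ (univ.erase a : Finset β) ↔ j ≠ a := by
      intro j; simp
    rw [Finset.prod_subtype (p := fun j => j ≠ a) _ h1]
    refine Finset.prod_congr rfl ?_
    intro j _
    rw [Perm.ofSubtype_apply_coe]
    exact (cm_comp x (fun j : {j : β // j ≠ a} => (j : β)) Subtype.val_injective j (σ j)).symm

/-- the insertion recursion -/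
lemma rec_aux (χ : ℤˣ →* K) {β : Type*} [Fintype β] [DecidableEq β] (x : Option β → K)
    (hx : Function.Injective x) :
    S χ x = ∑ a : β, χ (-1) * (-(1 / (x (some a) - x none)) ^ 2) *
      S χ (fun j : {j : β // j ≠ a} => x (some j)) := by
  classical
  -- step 1: decompose
  have step1 : S χ x = ∑ σ : Perm β, ∑ b : β, χ (-1) * χ (Perm.sign σ) *
      (cm x none (some b) * ∏ j : β, cm x (some j) (if σ j = b then none else some (σ j))) := by
    unfold S
    rw [← (Perm.decomposeOption (α := β)).symm.sum_comp]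
    rw [Fintype.sum_prod_type]
    rw [Fintype.sum_option]
    rw [Finset.sum_eq_zero, zero_add]
    · rw [Finset.sum_comm]
      refine Finset.sum_congr rfl fun σ _ => Finset.sum_congr rfl fun b _ => ?_
      have hs : Perm.sign (Perm.decomposeOption.symm (some b, σ)) = -1 * Perm.sign σ := by
        rw [Perm.decomposeOption_symm_apply]
        rw [map_mul, optionCongr_sign, Perm.sign_swap (by simp)]
      rw [hs, map_mul]
      congr 1
      rw [Fintype.prod_option]
      simp only [Perm.decomposeOption_symm_apply, Perm.coe_mul, Function.comp_apply,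
        optionCongr_apply, Option.map_some, Option.map_none, swap_apply_left]
      congr 1
      refine Finset.prod_congr rfl fun j _ => ?_
      by_cases h : σ j = b
      · simp [h]
      · rw [swap_apply_of_ne_of_ne (by simp) (by simpa using h)]
        simp [h]
    · intro σ _
      rw [Fintype.prod_option]
      simp [Perm.decomposeOption_symm_apply, cm]
  -- step 2: reindex b = σ a, and simplify the product
  have step2 : ∀ σ : Perm β, ∀ a : β,
      cm x none (some (σ a)) * ∏ j : β, cm x (some j) (if σ j = σ a then none else some (σ j))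
        = (if σ a = a then (-(1 / (x (some a) - x none)) ^ 2) *
              ∏ j ∈ univ.erase a, cm (x ∘ some) j (σ j) else 0)
          + (1 / (x (some a) - x none) - 1 / (x (some (σ a)) - x none)) *
              ∏ j, cm (x ∘ some) j (σ j) := by
    intro σ a
    have hx1 : x (some a) - x none ≠ 0 := sub_ne_zero.2 (fun h => by simpa using hx h)
    have hx2 : x (some (σ a)) - x none ≠ 0 := sub_ne_zero.2 (fun h => by simpa using hx h)
    have hx2' : x none - x (some (σ a)) ≠ 0 := sub_ne_zero.2 (fun h => by simpa using hx h)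
    have e1 : ∏ j : β, cm x (some j) (if σ j = σ a then none else some (σ j))
        = (1 / (x (some a) - x none)) * ∏ j ∈ univ.erase a, cm (x ∘ some) j (σ j) := by
      rw [← Finset.mul_prod_erase univ _ (mem_univ a)]
      congr 1
      · simp [cm]
      · refine Finset.prod_congr rfl fun j hj => ?_
        have hja : j ≠ a := (Finset.mem_erase.1 hj).1
        have : σ j ≠ σ a := fun h => hja (σ.injective h)
        rw [if_neg this, cm_comp x some (Option.some_injective β)]
    have e2 : ∏ j, cm (x ∘ some) j (σ j)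
        = cm (x ∘ some) a (σ a) * ∏ j ∈ univ.erase a, cm (x ∘ some) j (σ j) := by
      rw [← Finset.mul_prod_erase univ _ (mem_univ a)]
    rw [e1, e2]
    by_cases h : σ a = a
    · rw [if_pos h, h]
      rw [h] at hx2'
      simp only [cm, reduceCtorEq, if_false, if_true]
      field_simp
      ring
    · rw [if_neg h]
      have hx3 : x (some a) - x (some (σ a)) ≠ 0 := sub_ne_zero.2 (fun h' => h (by
        have := hx h'
        simpa using this.symm))
      have h' : a ≠ σ a := fun h'' => h h''.symm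
      simp only [cm, reduceCtorEq, if_false, h', Function.comp]
      field_simp
      ring
  have step3 : S χ x = ∑ σ : Perm β, ∑ a : β,
      (if σ a = a then (χ (-1) * (-(1 / (x (some a) - x none)) ^ 2)) * (χ (Perm.sign σ) *
              ∏ j ∈ univ.erase a, cm (x ∘ some) j (σ j)) else 0) := by
    rw [step1]
    refine Finset.sum_congr rfl fun σ _ => ?_
    rw [← Equiv.sum_comp σ]
    simp_rw [step2 σ, mul_add]
    rw [Finset.sum_add_distrib]
    have : ∑ a : β, χ (-1) * χ (Perm.sign σ) * ((1 / (x (some a) - x none)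
        - 1 / (x (some (σ a)) - x none)) * ∏ j, cm (x ∘ some) j (σ j)) = 0 := by
      rw [← Finset.mul_sum, ← Finset.sum_mul, Finset.sum_sub_distrib]
      rw [Equiv.sum_comp σ (fun a => 1 / (x (some a) - x none))]
      simp
    rw [this, add_zero]
    refine Finset.sum_congr rfl fun a _ => ?_
    split_ifs
    · ring
    · simp
  rw [step3, Finset.sum_comm]
  refine Finset.sum_congr rfl fun a _ => ?_
  have := sum_fix χ (x ∘ some) a
  have e3 : (fun j : {j : β // j ≠ a} => x (some j)) = (fun j : {j : β // j ≠ a} => (x ∘ some) j) := rfl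
  rw [e3, ← this, Finset.mul_sum]
  refine Finset.sum_congr rfl fun σ _ => ?_
  split_ifs
  · rfl
  · simp

lemma main_aux (m : ℕ) : ∀ (χ : ℤˣ →* K) (x : Fin m → K) (_ : Function.Injective x),
    S χ x = χ (-1) ^ (m / 2) * S 1 x := by
  induction m using Nat.strong_induction_on with
  | _ m ih =>
    intro χ x hx
    rcases m with _ | _ | m
    · simp [S]
    · simp [S, cm]
    · -- Option (Fin (m+1)) ≃ Fin (m+2)
      let e : Option (Fin (m+1)) ≃ Fin (m+2) := (finSuccEquiv (m+1)).symm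
      have hxe : Function.Injective (x ∘ e) := hx.comp e.injective
      have key : ∀ χ : ℤˣ →* K, ∀ a : Fin (m+1), S χ (fun j : {j : Fin (m+1) // j ≠ a} => (x ∘ e) (some j))
          = S χ ((fun j : {j : Fin (m+1) // j ≠ a} => (x ∘ e) (some j)) ∘ (finSuccAboveEquiv a)) := by
        intro χ a
        rw [S_congr χ _ (finSuccAboveEquiv a)]
      rw [← S_congr χ x e, ← S_congr 1 x e, rec_aux χ _ hxe, rec_aux 1 _ hxe, Finset.mul_sum]
      refine Finset.sum_congr rfl fun a _ => ?_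
      rw [key χ a, key 1 a]
      have inj : Function.Injective ((fun j : {j : Fin (m+1) // j ≠ a} => (x ∘ e) (some j)) ∘ (finSuccAboveEquiv a)) := by
        refine Function.Injective.comp ?_ (finSuccAboveEquiv a).injective
        intro i j hij
        have := hxe hij
        exact Subtype.ext (by simpa using this)
      rw [ih m (by omega) χ _ inj]
      have h2 : (m + 1 + 1) / 2 = m / 2 + 1 := by omega
      rw [h2, pow_succ]
      simp only [MonoidHom.one_apply]
      ring

/-- the roots of unity -/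
lemma pow_inj {n : ℕ} {ζ : ℂ} (hζ : IsPrimitiveRoot ζ n) :
    Function.Injective (fun j : Fin n => ζ ^ (j : ℕ)) := by
  intro i j h
  exact Fin.ext (hζ.pow_inj i.2 j.2 h)

lemma sum_pow {n : ℕ} {ζ : ℂ} (hζ : IsPrimitiveRoot ζ n) (r : ℕ) (h0 : 0 < r) (hr : r < n) :
    ∑ k : Fin n, (ζ ^ (k : ℕ)) ^ r = 0 := by
  have h1 : ∑ k : Fin n, (ζ ^ (k : ℕ)) ^ r = ∑ k ∈ Finset.range n, (ζ ^ r) ^ k := by
    rw [Finset.sum_range]
    refine Finset.sum_congr rfl fun k _ => ?_
    rw [← pow_mul, ← pow_mul, mul_comm]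
  rw [h1]
  have h2 : ζ ^ r ≠ 1 := hζ.pow_ne_one_of_pos_of_lt (by omega) hr
  have h3 := geom_sum_mul (ζ ^ r) n
  have h4 : (ζ ^ r) ^ n = 1 := by rw [← pow_mul, mul_comm, pow_mul, hζ.pow_eq_one, one_pow]
  rw [h4, sub_self] at h3
  rcases mul_eq_zero.1 h3 with h | h
  · exact h
  · exact absurd (sub_eq_zero.1 h) h2

/-- base case: eigenvalue for the constant vector -/
lemma E0 {n : ℕ} {ζ : ℂ} (hn : 1 < n) (hζ : IsPrimitiveRoot ζ n) (j : Fin n) :
    ∑ k : Fin n, (if j = k then 0 else ζ ^ (k : ℕ) / (ζ ^ (k : ℕ) - ζ ^ (j : ℕ))) = ((n : ℂ) - 1) / 2 := by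
  have : NeZero n := ⟨by omega⟩
  have hmul : ∀ a b : Fin n, ζ ^ ((a + b : Fin n) : ℕ) = ζ ^ (a : ℕ) * ζ ^ (b : ℕ) := by
    intro a b
    rw [Fin.val_add, ← pow_add]
    conv_rhs => rw [← Nat.div_add_mod ((a : ℕ) + b) n, pow_add, pow_mul, hζ.pow_eq_one, one_pow, one_mul]
  have hne : ζ ≠ 0 := hζ.ne_zero (by omega)
  set g : Fin n → ℂ := fun k => if j = k then 0 else ζ ^ (k : ℕ) / (ζ ^ (k : ℕ) - ζ ^ (j : ℕ)) with hg
  have hrefl : ∑ k : Fin n, g k = ∑ k : Fin n, g ((j + j) - k) :=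
    (Equiv.sum_comp (Equiv.subLeft (j + j)) g).symm
  have hsum : ∑ k : Fin n, (g k + g ((j + j) - k)) = (n : ℂ) - 1 := by
    have : ∀ k : Fin n, g k + g ((j + j) - k) = if k = j then 0 else 1 := by
      intro k
      by_cases h : k = j
      · subst h
        simp [hg]
      · have h2 : ¬ (j = (j + j) - k) := by
          intro h'
          apply h
          have : k = j + j - j := by
            rw [eq_sub_iff_add_eq] at h' ⊢
            rw [← h']
            abel
          simpa using this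
        have h3 : ¬ (j = k) := fun h' => h h'.symm
        simp only [hg, h2, h3, if_false, h]
        have e1 : ζ ^ (((j + j) - k : Fin n) : ℕ) * ζ ^ (k : ℕ) = ζ ^ (j : ℕ) * ζ ^ (j : ℕ) := by
          rw [← hmul, ← hmul]
          congr 2
          abel
        have hk : ζ ^ (k : ℕ) ≠ 0 := pow_ne_zero _ hne
        have hj : ζ ^ (j : ℕ) ≠ 0 := pow_ne_zero _ hne
        have hkj : ζ ^ (k : ℕ) - ζ ^ (j : ℕ) ≠ 0 := sub_ne_zero.2 (fun h' => h (pow_inj hζ h'))
        have e2 : ζ ^ (((j + j) - k : Fin n) : ℕ) = ζ ^ (j : ℕ) * ζ ^ (j : ℕ) / ζ ^ (k : ℕ) := by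
          rw [eq_div_iff hk]; exact e1
        rw [e2]
        have e3 : ζ ^ (j : ℕ) * ζ ^ (j : ℕ) / ζ ^ (k : ℕ) - ζ ^ (j : ℕ)
            = ζ ^ (j : ℕ) * (ζ ^ (j : ℕ) - ζ ^ (k : ℕ)) / ζ ^ (k : ℕ) := by
          field_simp
        rw [e3]
        have hjk : ζ ^ (j : ℕ) - ζ ^ (k : ℕ) ≠ 0 := by
          intro h'; apply hkj; rw [← neg_sub, h', neg_zero]
        rw [div_div_div_cancel_right₀ hk, mul_div_mul_left _ _ hj]
        rw [div_add_div _ _ hkj hjk, div_eq_one_iff_eq (mul_ne_zero hkj hjk)]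
        ring
    simp_rw [this]
    rw [Finset.sum_ite]
    simp only [Finset.sum_const_zero, zero_add, Finset.sum_const, nsmul_eq_mul, mul_one]
    rw [Finset.filter_ne', Finset.card_erase_of_mem (mem_univ _), Finset.card_univ, Fintype.card_fin]
    rw [Nat.cast_sub (by omega)]
    simp
  rw [Finset.sum_add_distrib, ← hrefl] at hsum
  rw [eq_div_iff two_ne_zero]
  linear_combination hsum

lemma Er {n : ℕ} {ζ : ℂ} (hn : 1 < n) (hζ : IsPrimitiveRoot ζ n) (j : Fin n) (r : ℕ) (hr : r < n) :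
    ∑ k : Fin n, (if j = k then 0 else ζ ^ (k : ℕ) / (ζ ^ (k : ℕ) - ζ ^ (j : ℕ))) * (ζ ^ (k : ℕ)) ^ r
      = (ζ ^ (j : ℕ)) ^ r * (((n : ℂ) - 1) / 2 - r) := by
  induction r with
  | zero => simpa using E0 hn hζ j
  | succ r ih =>
    have ih' := ih (by omega)
    have h1 : ∑ k : Fin n, (if j = k then 0 else ζ ^ (k : ℕ) / (ζ ^ (k : ℕ) - ζ ^ (j : ℕ))) * (ζ ^ (k : ℕ)) ^ (r + 1)
        = ζ ^ (j : ℕ) * ∑ k : Fin n, (if j = k then 0 else ζ ^ (k : ℕ) / (ζ ^ (k : ℕ) - ζ ^ (j : ℕ))) * (ζ ^ (k : ℕ)) ^ r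
          + ((∑ k : Fin n, (ζ ^ (k : ℕ)) ^ (r + 1)) - (ζ ^ (j : ℕ)) ^ (r + 1)) := by
      rw [Finset.mul_sum]
      rw [← Finset.sum_erase_add (a := j) univ (fun k : Fin n => (ζ ^ (k : ℕ)) ^ (r + 1)) (mem_univ _),
        add_sub_cancel_right]
      rw [← Finset.sum_erase_add (a := j) univ _ (mem_univ _)]
      conv_rhs => rw [← Finset.sum_erase_add (a := j) univ _ (mem_univ _)]
      simp only [if_true, zero_mul, mul_zero, add_zero]
      rw [← Finset.sum_add_distrib]
      refine Finset.sum_congr rfl fun k hk => ?_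
      have hjk : ¬ (j = k) := fun h => (Finset.mem_erase.1 hk).1 h.symm
      have hkj : ζ ^ (k : ℕ) - ζ ^ (j : ℕ) ≠ 0 := sub_ne_zero.2 (fun h' => hjk (pow_inj hζ h').symm)
      rw [if_neg hjk]
      field_simp
      ring
    rw [h1, ih', sum_pow hζ (r + 1) (by omega) hr]
    push_cast
    ring

/-- The determinant of the circulant matrix. -/
lemma det_C {n : ℕ} {ζ : ℂ} (hn : 1 < n) (hζ : IsPrimitiveRoot ζ n) :
    (Matrix.of (fun j k : Fin n => if j = k then 0 else ζ ^ (k : ℕ) / (ζ ^ (k : ℕ) - ζ ^ (j : ℕ)))).det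
      = ∏ r : Fin n, (((n : ℂ) - 1) / 2 - ((r : ℕ) : ℂ)) := by
  set C := (Matrix.of (fun j k : Fin n => if j = k then 0 else ζ ^ (k : ℕ) / (ζ ^ (k : ℕ) - ζ ^ (j : ℕ)))) with hC
  set V := Matrix.vandermonde (fun j : Fin n => ζ ^ (j : ℕ)) with hV
  have h1 : C * V = V * Matrix.diagonal (fun r : Fin n => ((n : ℂ) - 1) / 2 - ((r : ℕ) : ℂ)) := by
    ext j r
    rw [Matrix.mul_apply, Matrix.mul_diagonal]
    simp only [hC, hV, Matrix.of_apply, Matrix.vandermonde_apply]
    exact Er hn hζ j r r.2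
  have h2 : V.det ≠ 0 := Matrix.det_vandermonde_ne_zero_iff.2 (pow_inj hζ)
  have h3 := congrArg Matrix.det h1
  rw [Matrix.det_mul, Matrix.det_mul, Matrix.det_diagonal, mul_comm] at h3
  exact mul_left_cancel₀ h2 h3

lemma prod_even (m : ℕ) : ∏ r ∈ Finset.range (2 * m), (((2 * m : ℕ) : ℂ) - 1 - 2 * (r : ℂ))
    = (-1) ^ m * ((Nat.doubleFactorial (2 * m - 1) : ℕ) : ℂ) ^ 2 := by
  induction m with
  | zero => simp
  | succ m ih =>
    have e : 2 * (m + 1) = 2 * m + 1 + 1 := by ring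
    rw [e, Finset.prod_range_succ, Finset.prod_range_succ']
    have h1 : ∏ k ∈ Finset.range (2 * m), (((2 * m + 1 + 1 : ℕ) : ℂ) - 1 - 2 * ((k + 1 : ℕ) : ℂ))
        = ∏ r ∈ Finset.range (2 * m), (((2 * m : ℕ) : ℂ) - 1 - 2 * (r : ℂ)) := by
      refine Finset.prod_congr rfl fun k _ => ?_
      push_cast; ring
    rw [h1, ih]
    have h2 : 2 * m + 1 + 1 - 1 = 2 * m - 1 + 2 ∨ m = 0 := by omega
    rcases h2 with h2 | h2
    · rw [h2, Nat.doubleFactorial_add_two]
      have h3 : ((2 * m - 1 + 2 : ℕ) : ℂ) = 2 * m + 1 := by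
        rw [← h2]; push_cast; ring
      push_cast at h3 ⊢
      rw [h3]
      ring
    · subst h2
      norm_num

lemma prod_even' (m : ℕ) : ∏ r : Fin (2 * m), ((((2 * m : ℕ) : ℂ) - 1) / 2 - ((r : ℕ) : ℂ))
    = (-1) ^ m * (((Nat.doubleFactorial (2 * m - 1) : ℕ) : ℂ) ^ 2 / 2 ^ (2 * m)) := by
  rw [← mul_div_assoc, ← prod_even m, eq_div_iff (pow_ne_zero _ two_ne_zero)]
  rw [Finset.prod_range]
  have : (2 : ℂ) ^ (2 * m) = ∏ r : Fin (2 * m), (2 : ℂ) := by simp
  rw [this, ← Finset.prod_mul_distrib]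
  refine Finset.prod_congr rfl fun k _ => ?_
  ring

lemma closed_form (m : ℕ) : ((Nat.doubleFactorial (2 * m - 1) : ℕ) : ℂ) ^ 2 / 2 ^ (2 * m)
    = (Nat.factorial (2 * m) : ℂ) / 4 ^ (2 * m) * (Nat.choose (2 * m) m : ℂ) := by
  have h1 : (Nat.factorial (2 * m) : ℂ) = 2 ^ m * (Nat.factorial m : ℂ) * ((Nat.doubleFactorial (2 * m - 1) : ℕ) : ℂ) := by
    rcases m with _ | m
    · simp
    · have h2 : 2 * (m + 1) = (2 * m + 1) + 1 := by ring
      have h3 := Nat.factorial_eq_mul_doubleFactorial (2 * m + 1)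
      have h4 := Nat.doubleFactorial_two_mul (m + 1)
      rw [h2] at h4 ⊢
      rw [h3, h4]
      push_cast
      simp
  have h5 : (Nat.choose (2 * m) m : ℂ) * ((Nat.factorial m : ℂ) * (Nat.factorial m : ℂ)) = (Nat.factorial (2 * m) : ℂ) := by
    have := Nat.choose_mul_factorial_mul_factorial (n := 2 * m) (k := m) (by omega)
    have h6 : 2 * m - m = m := by omega
    rw [h6] at this
    rw [← this]
    push_cast
    ring
  have h7 : (Nat.factorial m : ℂ) ≠ 0 := by
    exact_mod_cast (Nat.factorial_pos m).ne'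
  have h8 : (Nat.choose (2 * m) m : ℂ) = (Nat.factorial (2 * m) : ℂ) / ((Nat.factorial m : ℂ) * (Nat.factorial m : ℂ)) := by
    rw [eq_div_iff (mul_ne_zero h7 h7)]; exact h5
  rw [h8, h1]
  have h9 : (4 : ℂ) ^ (2 * m) = 2 ^ (2 * m) * (2 ^ m * 2 ^ m) := by
    rw [show (4 : ℂ) = 2 * 2 by norm_num, mul_pow, two_mul, pow_add]
  rw [h9]
  have h10 : (2 : ℂ) ^ m ≠ 0 := pow_ne_zero _ two_ne_zero
  have h11 : (2 : ℂ) ^ (2 * m) ≠ 0 := pow_ne_zero _ two_ne_zero
  field_simp

end Pool.Agent.Results.MP_cc6741_nt.EvenDerangementSum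

open Pool.Agent.Results.MP_cc6741_nt.EvenDerangementSum in
/-- For even `n > 1` and a primitive `n`-th root of unity `ζ`, the sum over all derangements `τ`
of `∏ j, 1 / (1 - ζ ^ (j - τ j))` equals `((n-1)‼)^2 / 2^n = n!/4^n * choose n (n/2)`. -/
theorem Pool.Agent.Results.MP_cc6741_nt.EvenDerangementSum.result (n : ℕ) (hn : 1 < n) (he : Even n) (ζ : ℂ)
    (hζ : IsPrimitiveRoot ζ n) :
    (∑ τ ∈ (Finset.univ : Finset (Equiv.Perm (Fin n))).filter (fun τ => ∀ j, τ j ≠ j),
        ∏ j : Fin n, 1 / (1 - ζ ^ (((j : ℕ) : ℤ) - ((τ j : ℕ) : ℤ))))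
      = ((Nat.doubleFactorial (n - 1) : ℕ) : ℂ) ^ 2 / 2 ^ n
    ∧ ((Nat.doubleFactorial (n - 1) : ℕ) : ℂ) ^ 2 / 2 ^ n
      = (Nat.factorial n : ℂ) / 4 ^ n * (Nat.choose n (n / 2) : ℂ) := by
  obtain ⟨m, hm⟩ := he
  have hm2 : n = 2 * m := by omega
  clear hm
  subst hm2
  refine ⟨?_, ?_⟩
  swap
  · have : 2 * m / 2 = m := by omega
    rw [this]
    exact closed_form m
  have hne : ζ ≠ 0 := hζ.ne_zero (by omega)
  set x : Fin (2 * m) → ℂ := fun j => ζ ^ (j : ℕ) with hx
  have hxi : Function.Injective x := pow_inj hζ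
  set C : Fin (2 * m) → Fin (2 * m) → ℂ :=
    fun j k => if j = k then 0 else ζ ^ (k : ℕ) / (ζ ^ (k : ℕ) - ζ ^ (j : ℕ)) with hC
  set P : ℂ := ∏ j, (- x j) with hP
  have hCcm : ∀ j k, C j k = (- x k) * cm x j k := by
    intro j k
    by_cases h : j = k
    · simp [hC, cm, h]
    · have h1 : x j - x k ≠ 0 := sub_ne_zero.2 (fun h' => h (hxi h'))
      have h2 : x k - x j ≠ 0 := sub_ne_zero.2 (fun h' => h (hxi h').symm)
      simp only [hC, cm, h, if_false]
      change x k / (x k - x j) = - x k * (1 / (x j - x k))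
      field_simp
      ring
  have hprod : ∀ τ : Equiv.Perm (Fin (2 * m)), ∏ j, C j (τ j) = P * ∏ j, cm x j (τ j) := by
    intro τ
    simp_rw [hCcm]
    rw [Finset.prod_mul_distrib, Equiv.prod_comp τ (fun j => - x j)]
  -- the permanent
  have hper : (∑ τ ∈ (Finset.univ : Finset (Equiv.Perm (Fin (2 * m)))).filter (fun τ => ∀ j, τ j ≠ j),
        ∏ j : Fin (2 * m), 1 / (1 - ζ ^ (((j : ℕ) : ℤ) - ((τ j : ℕ) : ℤ)))) = P * S 1 x := by
    have h1 : P * S 1 x = ∑ τ : Equiv.Perm (Fin (2 * m)), ∏ j, C j (τ j) := by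
      unfold S
      rw [Finset.mul_sum]
      refine Finset.sum_congr rfl fun τ _ => ?_
      rw [hprod]
      simp
    rw [h1, Finset.sum_filter]
    refine Finset.sum_congr rfl fun τ _ => ?_
    by_cases h : ∀ j, τ j ≠ j
    · rw [if_pos h]
      refine Finset.prod_congr rfl fun j _ => ?_
      have hj : ¬ (j = τ j) := fun h' => h j h'.symm
      simp only [hC, hj, if_false]
      have h2 : ζ ^ ((τ j : ℕ)) - ζ ^ (j : ℕ) ≠ 0 := sub_ne_zero.2 (fun h' => h j (hxi h'))
      have h3 : ζ ^ ((τ j : ℕ)) ≠ 0 := pow_ne_zero _ hne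
      rw [zpow_sub₀ hne, zpow_natCast, zpow_natCast]
      have h4 : 1 - ζ ^ (j : ℕ) / ζ ^ ((τ j : ℕ)) = (ζ ^ ((τ j : ℕ)) - ζ ^ (j : ℕ)) / ζ ^ ((τ j : ℕ)) := by
        field_simp
      rw [h4, one_div_div]
    · rw [if_neg h]
      push Not at h
      obtain ⟨j, hj⟩ := h
      symm
      apply Finset.prod_eq_zero (Finset.mem_univ j)
      simp [hC, hj]
  let χ : ℤˣ →* ℂ := (Int.castRingHom ℂ).toMonoidHom.comp (Units.coeHom ℤ)
  have hχ : χ (-1) = -1 := by simp [χ]
  have hdet : (Matrix.of C).det = P * S χ x := by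
    rw [← Matrix.det_transpose, Matrix.det_apply']
    unfold S
    rw [Finset.mul_sum]
    refine Finset.sum_congr rfl fun τ _ => ?_
    simp only [Matrix.transpose_apply, Matrix.of_apply]
    rw [hprod]
    simp only [χ, MonoidHom.coe_comp, Function.comp_apply, Units.coeHom_apply, RingHom.toMonoidHom_eq_coe,
      MonoidHom.coe_coe, eq_intCast]
    ring
  have hdet2 := det_C (n := 2 * m) (by omega) hζ
  have hdet3 : (Matrix.of C).det = (-1) ^ m * (((Nat.doubleFactorial (2 * m - 1) : ℕ) : ℂ) ^ 2 / 2 ^ (2 * m)) := by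
    rw [← prod_even' m]
    exact hdet2
  have hS := main_aux (2 * m) χ x hxi
  have h22 : 2 * m / 2 = m := by omega
  rw [hχ, h22] at hS
  rw [hper]
  have hfin : P * S χ x = (-1) ^ m * (P * S 1 x) := by rw [hS]; ring
  rw [hdet] at hdet3
  rw [hfin] at hdet3
  have hm1 : ((-1 : ℂ)) ^ m ≠ 0 := pow_ne_zero _ (by norm_num)
  exact mul_left_cancel₀ hm1 hdet3
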